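import Pool.Agent.Y661.HE.Stm

set_option autoImplicit false

/-!
Project HE (helper661), job AS2: asymptotics II, the initial scale of the multiscale analysis.
-/

namespace Pool.Agent.Y496.HE.AS2

open Filter Real
open Pool.Agent.Y661.HE (NN LL S_AS2)

/-- `exp (d ^ β)` is larger than `36 d + 38` -/
theorem ev_exp {β : ℝ} (hβ : 0 < β) : ∀ᶠ d : ℕ in atTop, 36 * (d : ℝ) + 38 ≤ Real.exp ((d : ℝ) ^ β) := by
  have h1 : ∀ᶠ x : ℝ in atTop, 36 * x + 38 ≤ Real.exp (x ^ β) := by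
    have h2 := (isLittleO_log_rpow_atTop hβ).bound (show (0:ℝ) < 1 / 2 by norm_num)
    have h3 : Tendsto (fun x : ℝ => Real.exp (x ^ β / 2)) atTop atTop :=
      Real.tendsto_exp_atTop.comp ((tendsto_rpow_atTop hβ).atTop_div_const (by norm_num))
    filter_upwards [h2, h3.eventually_ge_atTop 80, eventually_ge_atTop 1] with x g1 g2 g3
    have hx : 0 < x := by linarith
    have hp : 0 < x ^ β := Real.rpow_pos_of_pos hx _
    rw [Real.norm_of_nonneg (Real.log_nonneg g3), Real.norm_of_nonneg hp.le] at g1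
    have h4 : x ≤ Real.exp (x ^ β / 2) := by
      rw [← Real.log_le_iff_le_exp hx]
      linarith
    have e : Real.exp (x ^ β) = Real.exp (x ^ β / 2) * Real.exp (x ^ β / 2) := by
      rw [← Real.exp_add]
      congr 1
      ring
    rw [e]
    have h5 : 80 * x ≤ Real.exp (x ^ β / 2) * Real.exp (x ^ β / 2) :=
      mul_le_mul g2 h4 hx.le (by linarith)
    linarith
  exact tendsto_natCast_atTop_atTop.eventually h1

theorem pow_le4 {a b k m : ℕ} (h : a ≤ 4 ^ k) (hm : k * b ≤ m) : a ^ b ≤ 4 ^ m :=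
  (Nat.pow_le_pow_left h b).trans (by
    rw [← pow_mul]
    exact Nat.pow_le_pow_right (by norm_num) hm)

theorem le4 (d : ℕ) : d ≤ 4 ^ d := (Nat.lt_pow_self (by norm_num)).le

theorem main : S_AS2 := by
  intro β hβ hβ2
  filter_upwards [ev_exp hβ, eventually_ge_atTop 1] with d hX hd
  set X := Real.exp ((d : ℝ) ^ β) with hXd
  set n := ⌈X⌉₊ with hn
  have hLL : LL β d = 4 ^ n := by
    unfold LL
    rw [pow_mul, show (2 : ℕ) ^ 2 = 4 by norm_num]
  have hXn : X ≤ n := Nat.le_ceil X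
  have hX0 : 0 < X := Real.exp_pos _
  have hnX : (n : ℝ) < X + 1 := Nat.ceil_lt_add_one hX0.le
  have hnd : 36 * d + 38 ≤ n := by
    have : ((36 * d + 38 : ℕ) : ℝ) ≤ n := by push_cast; linarith
    exact_mod_cast this
  have hd1 : (1 : ℝ) ≤ d := by exact_mod_cast hd
  have hup : ∀ m : ℕ, m ≤ n → (4 : ℕ) ^ m ≤ 4 ^ n := fun m hm => Nat.pow_le_pow_right (by norm_num) hm
  have h17 : (17 : ℕ) ^ d ≤ 4 ^ (3 * d) := pow_le4 (k := 3) (by norm_num) (by omega)
  rw [hLL]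
  refine ⟨?_, ?_, ?_, ?_, ?_, ?_, ?_⟩
  · have h1 : 2 * d * 17 ^ d ≤ 4 ^ (4 * d + 1) := by
      calc 2 * d * 17 ^ d ≤ 4 * 4 ^ d * 4 ^ (3 * d) :=
            Nat.mul_le_mul (Nat.mul_le_mul (by norm_num) (le4 d)) h17
        _ = 4 ^ (4 * d + 1) := by ring
    have h2 : (2 * d * 17 ^ d) ^ 2 ≤ 4 ^ (8 * d + 2) := pow_le4 h1 (by omega)
    have h3 : (10 : ℕ) ^ (4 * (3 * d + 4) + 2 * d + 2) ≤ 4 ^ (28 * d + 36) := pow_le4 (k := 2) (by norm_num) (by omega)
    calc _ ≤ 4 ^ (8 * d + 2) * 4 ^ (28 * d + 36) := Nat.mul_le_mul h2 h3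
      _ = 4 ^ (36 * d + 38) := by rw [← pow_add]; congr 1; ring
      _ ≤ 4 ^ n := hup _ hnd
  · have h2 : (17 : ℕ) ^ (2 * d) ≤ 4 ^ (6 * d) := pow_le4 (k := 3) (by norm_num) (by omega)
    have h3 : (10 : ℕ) ^ (2 * d + 1) ≤ 4 ^ (4 * d + 2) := pow_le4 (k := 2) (by norm_num) (by omega)
    calc 6 * 17 ^ (2 * d) * 10 ^ (2 * d + 1) ≤ 4 ^ 2 * 4 ^ (6 * d) * 4 ^ (4 * d + 2) :=
          Nat.mul_le_mul (Nat.mul_le_mul (by norm_num) h2) h3
      _ = 4 ^ (10 * d + 4) := by rw [← pow_add, ← pow_add]; congr 1; ring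
      _ ≤ 4 ^ n := hup _ (by omega)
  · calc 12 * 17 ^ d ≤ 4 ^ 2 * 4 ^ (3 * d) := Nat.mul_le_mul (by norm_num) h17
      _ = 4 ^ (3 * d + 2) := by rw [← pow_add]; congr 1; ring
      _ ≤ 4 ^ n := hup _ (by omega)
  · have h1 : d ^ 2 ≤ 4 ^ (2 * d) := pow_le4 (k := d) (le4 d) (by omega)
    calc 4 ^ d * (4 * d ^ 2) ≤ 4 ^ d * (4 * 4 ^ (2 * d)) := Nat.mul_le_mul_left _ (Nat.mul_le_mul_left _ h1)
      _ = 4 ^ (3 * d + 1) := by ring
      _ ≤ 4 ^ n := hup _ (by omega)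
  · have h1 : NN β d ≤ d := by
      unfold NN
      refine Nat.ceil_le.mpr ?_
      calc (d : ℝ) ^ β ≤ (d : ℝ) ^ (1 : ℝ) := Real.rpow_le_rpow_of_exponent_le hd1 (by linarith)
        _ = d := Real.rpow_one _
    calc (NN β d + 1) * NN β d ≤ (d + 1) * d := Nat.mul_le_mul (by omega) h1
      _ ≤ (4 ^ d * 4) * 4 ^ d := Nat.mul_le_mul (by
          have := le4 d
          omega) (le4 d)
      _ = 4 ^ (2 * d + 1) := by ring
      _ ≤ 4 ^ n := hup _ (by omega)
  · have hl2 := Real.log_two_gt_d9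
    have e4 : ((4 ^ n : ℕ) : ℝ) = Real.exp (n * (2 * Real.log 2)) := by
      push_cast
      rw [mul_comm, Real.exp_mul, Real.rpow_natCast]
      congr 1
      rw [two_mul, Real.exp_add, Real.exp_log (by norm_num)]
      norm_num
    have h1 : Real.exp X * 2 ≤ ((4 ^ n : ℕ) : ℝ) := by
      rw [e4]
      calc Real.exp X * 2 = Real.exp (X + Real.log 2) := by
            rw [Real.exp_add, Real.exp_log (by norm_num)]
        _ ≤ _ := by
            apply Real.exp_le_exp.mpr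
            nlinarith
    have h2 : Real.exp (-X) / 2 = (Real.exp X * 2)⁻¹ := by
      rw [Real.exp_neg, mul_inv]
      ring
    rw [h2]
    exact inv_anti₀ (by positivity) h1
  · have hl2 := Real.log_two_lt_d9
    set Lr : ℝ := ((4 ^ n : ℕ) : ℝ) with hLr
    have e4 : Lr = Real.exp (n * (2 * Real.log 2)) := by
      rw [hLr]
      push_cast
      rw [mul_comm, Real.exp_mul, Real.rpow_natCast]
      congr 1
      rw [two_mul, Real.exp_add, Real.exp_log (by norm_num)]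
      norm_num
    have hL4 : 4 ≤ Lr := by
      have : 4 ^ 1 ≤ 4 ^ n := hup 1 (by omega)
      rw [hLr]
      exact_mod_cast this
    have hLp : 0 < Lr := by linarith
    have e2 : Real.exp (2 * (d : ℝ) ^ β) = X ^ 2 := by
      rw [hXd, ← Real.exp_nat_mul]
      norm_num
    rw [e2, Real.exp_neg]
    have h1 : (2 * Lr + 1) ^ d ≤ Lr ^ (2 * d) := by
      rw [pow_mul]
      exact pow_le_pow_left₀ (by positivity) (by nlinarith) d
    have h2 : Lr ^ (2 * d) * 2 * Lr ^ (2 * d + 1) ≤ Lr ^ (4 * d + 2) := by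
      calc Lr ^ (2 * d) * 2 * Lr ^ (2 * d + 1) ≤ Lr ^ (2 * d) * Lr * Lr ^ (2 * d + 1) := by
            gcongr
            linarith
        _ = Lr ^ (4 * d + 2) := by ring
    have h3 : Lr ^ (4 * d + 2) ≤ Real.exp (X ^ 2) := by
      rw [e4, ← Real.exp_nat_mul]
      apply Real.exp_le_exp.mpr
      push_cast
      have h4 : (n : ℝ) * (2 * Real.log 2) ≤ 2 * X * 2 := by
        have h5 : (n : ℝ) ≤ 2 * X := by linarith
        exact mul_le_mul h5 (by linarith) (by positivity) (by positivity)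
      calc (4 * (d : ℝ) + 2) * (n * (2 * Real.log 2)) ≤ (4 * (d : ℝ) + 2) * (2 * X * 2) :=
            mul_le_mul_of_nonneg_left h4 (by positivity)
        _ = X * (16 * d + 8) := by ring
        _ ≤ X * X := mul_le_mul_of_nonneg_left (by linarith) hX0.le
        _ = X ^ 2 := by ring
    have hE : 0 < Real.exp (X ^ 2) := Real.exp_pos _
    rw [← one_div (Lr ^ (2 * d + 1)), le_div_iff₀ (by positivity)]
    calc (2 * Lr + 1) ^ d * (2 * (Real.exp (X ^ 2))⁻¹) * Lr ^ (2 * d + 1) =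
        ((2 * Lr + 1) ^ d * 2 * Lr ^ (2 * d + 1)) * (Real.exp (X ^ 2))⁻¹ := by ring
      _ ≤ (Lr ^ (2 * d) * 2 * Lr ^ (2 * d + 1)) * (Real.exp (X ^ 2))⁻¹ := by gcongr
      _ ≤ Real.exp (X ^ 2) * (Real.exp (X ^ 2))⁻¹ := by
          gcongr
          exact h2.trans h3
      _ = 1 := mul_inv_cancel₀ hE.ne'

end Pool.Agent.Y496.HE.AS2
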